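import Pool.Agent.Lib.MP_97eeef_nt.Linear

/-!
The sixteen-dimensional spin module of a nine-dimensional quadratic space: basic identities
and the Fierz identity.
-/

open Module

namespace Pool.Agent.Lib.MP_97eeef_nt.S9

variable {K V S : Type*} [Field K] [AddCommGroup V] [Module K V] [AddCommGroup S] [Module K S]

section dims

variable {X Y : Type*} [AddCommGroup X] [Module K X] [AddCommGroup Y] [Module K Y]
  [FiniteDimensional K X] [FiniteDimensional K Y]

omit [FiniteDimensional K Y] in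
theorem rank_eq (A : Submodule K X) (T : X →ₗ[K] Y) :
    finrank K (A.map T) + finrank K (A ⊓ LinearMap.ker T : Submodule K X) = finrank K A := by
  have h1 := LinearMap.finrank_range_add_finrank_ker (T.domRestrict A)
  rw [LinearMap.range_domRestrict, LinearMap.ker_domRestrict] at h1
  have h2 : (A ⊓ LinearMap.ker T : Submodule K X) =
      ((LinearMap.ker T).comap A.subtype).map A.subtype := by
    rw [Submodule.map_comap_subtype]
  rw [h2, Submodule.finrank_map_subtype_eq]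
  exact h1

theorem rank_le (A : Submodule K X) (T : X →ₗ[K] Y) (P : Submodule K Y) (h : ∀ a ∈ A, T a ∈ P) :
    finrank K A ≤ finrank K (A ⊓ LinearMap.ker T : Submodule K X) + finrank K P := by
  have h1 := rank_eq A T
  have h2 : finrank K (A.map T) ≤ finrank K P :=
    Submodule.finrank_mono (Submodule.map_le_iff_le_comap.2 h)
  omega

theorem rank_fun (A : Submodule K X) (f : X →ₗ[K] K) :
    finrank K A ≤ finrank K (A ⊓ LinearMap.ker f : Submodule K X) + 1 := by
  simpa using rank_le A f ⊤ fun _ _ => trivial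

theorem rank_inj (A : Submodule K X) (T : X →ₗ[K] Y) (P : Submodule K Y) (h : ∀ a ∈ A, T a ∈ P)
    (hi : ∀ a ∈ A, T a = 0 → a = 0) : finrank K A ≤ finrank K P := by
  have h1 := rank_le A T P h
  have h2 : (A ⊓ LinearMap.ker T : Submodule K X) = ⊥ :=
    (Submodule.eq_bot_iff _).2 fun a ha => hi a ha.1 ha.2
  rw [h2, finrank_bot] at h1
  omega

omit [FiniteDimensional K Y] in
theorem span_one (y : Y) : finrank K (Submodule.span K {y}) ≤ 1 := by
  simpa using finrank_span_le_card (R := K) ({y} : Set Y)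

theorem pencil' (hK : R4 K) (A B : X →ₗ[K] Y) (P : Submodule K Y) (hA : ∀ x, A x ∈ P)
    (hB : ∀ x, B x ∈ P) (h1 : 1 ≤ finrank K X) (h4 : finrank K X ≤ 4)
    (h : finrank K P ≤ finrank K X) :
    ∃ (s t : K) (z : X), (s ≠ 0 ∨ t ≠ 0) ∧ z ≠ 0 ∧ s • A z + t • B z = 0 := by
  obtain ⟨j, hj⟩ := (finrank_le_iff_exists_linearMap (R := K) (M := P) (M' := X)).1 h
  obtain ⟨s, t, z, hst, hz, e⟩ :=
    pencil hK (j ∘ₗ A.codRestrict P hA) (j ∘ₗ B.codRestrict P hB) h1 h4 rfl
  refine ⟨s, t, z, hst, hz, ?_⟩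
  simp only [LinearMap.comp_apply] at e
  rw [← map_smul j, ← map_smul j, ← map_add, ← map_zero j] at e
  exact congrArg Subtype.val (hj e)

end dims

variable (K V S) in
/-- Clifford multiplication with an invariant form. -/
structure Sp where
  B : V →ₗ[K] V →ₗ[K] K
  β : S →ₗ[K] S →ₗ[K] K
  γ : V →ₗ[K] S →ₗ[K] S
  e : S →ₗ[K] S →ₗ[K] V
  Bs : ∀ v w, B v w = B w v
  Bn : LinearMap.BilinForm.Nondegenerate B
  βs : ∀ x y, β x y = β y x
  βn : ∀ x, (∀ y, β x y = 0) → x = 0
  cl : ∀ v w x, γ v (γ w x) + γ w (γ v x) = (2 * B v w) • x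
  adj : ∀ v x y, β (γ v x) y = β x (γ v y)
  he : ∀ x y v, B (e x y) v = β (γ v x) y
  dV : finrank K V = 9
  dS : finrank K S = 16

namespace Sp

variable [CharZero K] [FiniteDimensional K V] [FiniteDimensional K S] (D : Sp K V S)

set_option linter.unusedSectionVars false

theorem cl' (v w : V) (x : S) : D.γ v (D.γ w x) = (2 * D.B v w) • x - D.γ w (D.γ v x) :=
  eq_sub_of_add_eq (D.cl v w x)

theorem sq (v : V) (x : S) : D.γ v (D.γ v x) = D.B v v • x := by
  linear_combination (norm := module) (1 / 2 : K) • D.cl v v x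

theorem extV {v w : V} (h : ∀ u, D.B v u = D.B w u) : v = w :=
  sub_eq_zero.1 (D.Bn.1 _ fun u => by simp [h])

theorem extS {x y : S} (h : ∀ z, D.β x z = D.β y z) : x = y :=
  sub_eq_zero.1 (D.βn _ fun u => by simp [h])

theorem es (x y : S) : D.e x y = D.e y x :=
  D.extV fun u => by rw [D.he, D.he, D.adj, D.βs]

theorem I1 (x y : S) (v : V) : D.e x (D.γ v y) + D.e y (D.γ v x) = (2 * D.β x y) • v := by
  refine D.extV fun w => ?_
  have h := congrArg (D.β x) (D.cl w v y)
  simp only [map_add, map_smul, LinearMap.add_apply, LinearMap.smul_apply, smul_eq_mul, D.he] at h ⊢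
  rw [D.adj w x, D.βs (D.γ w y), D.adj v x, h, D.Bs v w]
  ring

theorem I0 (x : S) (v : V) : D.e x (D.γ v x) = D.β x x • v := by
  linear_combination (norm := module) (1 / 2 : K) • D.I1 x x v

theorem iso_le (U : Submodule K V) (h : ∀ x ∈ U, ∀ y ∈ U, D.B x y = 0) : finrank K U ≤ 4 := by
  have := isotropic_bound D.Bn U U h
  rw [D.dV] at this
  omega

theorem exists_nonnull (U : Submodule K V) (h : 5 ≤ finrank K U) : ∃ v ∈ U, D.B v v ≠ 0 := by
  by_contra h0
  push Not at h0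
  have := D.iso_le U fun x hx y hy => by
    have h1 := h0 _ (U.add_mem hx hy)
    simp only [map_add, LinearMap.add_apply, h0 x hx, h0 y hy, D.Bs y x] at h1
    linear_combination (1 / 2 : K) * h1
  omega

theorem perp_dim (v : V) : 8 ≤ finrank K (LinearMap.ker (D.B v)) := by
  have := rank_fun ⊤ (D.B v)
  rw [top_inf_eq, finrank_top, D.dV] at this
  omega

/-- eigenspace of a Clifford multiplication -/
def E (ε : V) (c : K) : Submodule K S := LinearMap.ker (D.γ ε - c • LinearMap.id)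

theorem mem_E {ε : V} {c : K} {x : S} : x ∈ D.E ε c ↔ D.γ ε x = c • x := by
  simp [E, sub_eq_zero]

theorem swap (ε : V) (c : K) : finrank K (D.E ε (-c)) ≤ finrank K (D.E ε c) := by
  obtain ⟨h, hh, hn⟩ := D.exists_nonnull _ ((by norm_num : 5 ≤ 8).trans (D.perp_dim ε))
  refine rank_inj _ (D.γ h) _ (fun a ha => ?_) fun a _ h0 => ?_
  · rw [D.mem_E] at ha ⊢
    rw [D.cl', ha, LinearMap.mem_ker.1 hh]
    simp
  · have := D.sq h a
    rw [h0, map_zero] at this
    exact (smul_eq_zero.1 this.symm).resolve_left hn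

theorem E_ge {ε : V} {c : K} (h : D.B ε ε = c ^ 2) : 8 ≤ finrank K (D.E ε c) := by
  have h1 := rank_le ⊤ (D.γ ε - c • LinearMap.id) (D.E ε (-c)) fun a _ => by
    rw [D.mem_E]
    simp only [LinearMap.sub_apply, LinearMap.smul_apply, LinearMap.id_apply, map_sub, map_smul,
      D.sq, h]
    module
  rw [top_inf_eq, finrank_top, D.dS] at h1
  have h2 := D.swap ε c
  change 16 ≤ finrank K (D.E ε c) + _ at h1
  omega

theorem E_le {ε : V} {c : K} (hc : c ≠ 0) : finrank K (D.E ε (-c)) ≤ 8 := by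
  have h1 := Submodule.finrank_sup_add_finrank_inf_eq (D.E ε c) (D.E ε (-c))
  have h2 : D.E ε c ⊓ D.E ε (-c) = ⊥ := (Submodule.eq_bot_iff _).2 fun a ha => by
    have h3 : (2 * c) • a = 0 := by
      linear_combination (norm := module) D.mem_E.1 ha.2 - D.mem_E.1 ha.1
    exact (smul_eq_zero.1 h3).resolve_left (mul_ne_zero two_ne_zero hc)
  have h3 := Submodule.finrank_le (D.E ε c ⊔ D.E ε (-c))
  have h4 := D.swap ε c
  rw [h2, finrank_bot] at h1
  rw [D.dS] at h3
  omega

theorem E_orth {ε : V} {σ b : S} (hσ : D.γ ε σ = σ) (hb : D.γ ε b = -b) : D.β σ b = 0 := by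
  have := D.adj ε σ b
  rw [hσ, hb, map_neg] at this
  linear_combination (1 / 2 : K) * this

theorem tri0 {ε : V} {σ b : S} (hσ : D.γ ε σ = σ) (hb : D.γ ε b = -b)
    (hn : D.β σ σ ≠ 0) : D.γ (D.e σ b) σ = D.β σ σ • b := by
  have h1 : (LinearMap.ker (D.B ε)).map (D.γ.flip σ) ≤ D.E ε (-1) := by
    rintro _ ⟨v, hv, rfl⟩
    rw [D.mem_E, LinearMap.flip_apply, D.cl', hσ, LinearMap.mem_ker.1 hv]
    simp
  have h2 := rank_inj (LinearMap.ker (D.B ε)) (D.γ.flip σ) _ (fun a ha => Submodule.mem_map_of_mem ha)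
    fun a _ h0 => by
      have := D.I0 σ a
      rw [show D.γ a σ = 0 from h0, map_zero] at this
      exact (smul_eq_zero.1 this.symm).resolve_left hn
  have h3 := Submodule.eq_of_le_of_finrank_le h1
    ((D.E_le (ε := ε) one_ne_zero).trans ((D.perp_dim ε).trans h2))
  obtain ⟨v, -, rfl⟩ : b ∈ (LinearMap.ker (D.B ε)).map (D.γ.flip σ) := by
    rw [h3, D.mem_E, hb]; simp
  rw [LinearMap.flip_apply, D.I0, map_smul, LinearMap.smul_apply]

theorem quad_zero {g0 g1 g2 a b c : K} (ha : a ≠ 0)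
    (h : ∀ t, c + a * t + b * t ^ 2 ≠ 0 → g0 + g1 * t + g2 * t ^ 2 = 0) : g0 = 0 := by
  open Polynomial in
  have h1 : (C g0 + C g1 * X + C g2 * X ^ 2) * (C c + C a * X + C b * X ^ 2) = 0 := by
    refine Polynomial.funext fun t => ?_
    simp only [eval_mul, eval_add, eval_C, eval_X, eval_pow, eval_zero]
    by_cases h2 : c + a * t + b * t ^ 2 = 0
    · rw [h2, mul_zero]
    · rw [h t h2, zero_mul]
  rcases mul_eq_zero.1 h1 with h2 | h2
  · simpa using congrArg (Polynomial.coeff · 0) h2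
  · exact absurd (by simpa using congrArg (Polynomial.coeff · 1) h2) ha

theorem tri {ε : V} (h1 : D.B ε ε = 1) {σ b : S} (hσ : D.γ ε σ = σ) (hb : D.γ ε b = -b) :
    D.γ (D.e σ b) σ = D.β σ σ • b := by
  by_cases h0 : σ = 0
  · simp [h0]
  obtain ⟨y, hy⟩ : ∃ y, D.β σ y ≠ 0 := by
    by_contra h
    push Not at h
    exact h0 (D.βn σ h)
  have hρ : D.γ ε (y + D.γ ε y) = y + D.γ ε y := by rw [map_add, D.sq, h1, one_smul, add_comm]
  have h2 : D.β σ (y + D.γ ε y) = 2 * D.β σ y := by rw [map_add, ← D.adj, hσ]; ring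
  generalize y + D.γ ε y = ρ at hρ h2
  refine D.extS fun z => sub_eq_zero.1 ?_
  refine quad_zero (a := 2 * D.β σ ρ) (b := D.β ρ ρ) (c := D.β σ σ)
    (g1 := D.β (D.γ (D.e σ b) ρ) z + D.β (D.γ (D.e ρ b) σ) z - 2 * D.β σ ρ * D.β b z)
    (g2 := D.β (D.γ (D.e ρ b) ρ) z - D.β ρ ρ * D.β b z)
    (by rw [h2]; exact mul_ne_zero two_ne_zero (mul_ne_zero two_ne_zero hy)) fun t ht => ?_
  have h3 := D.tri0 (ε := ε) (σ := σ + t • ρ) (by rw [map_add, map_smul, hσ, hρ]) hb (by
    simp only [map_add, map_smul, LinearMap.add_apply, LinearMap.smul_apply, smul_eq_mul, D.βs ρ σ]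
    intro h
    exact ht (by linear_combination h))
  have h4 := congrArg (D.β · z) h3
  simp only [map_add, map_smul, LinearMap.add_apply, LinearMap.smul_apply, smul_eq_mul,
    D.βs ρ σ] at h4 ⊢
  linear_combination h4

theorem exists_unit (hK : R4 K) : ∃ ε, D.B ε ε = 1 := by
  obtain ⟨v, -, hv⟩ := D.exists_nonnull ⊤ (by rw [finrank_top, D.dV]; norm_num)
  obtain ⟨r, hr⟩ := sq_root hK (D.B v v)⁻¹
  refine ⟨r • v, ?_⟩
  simp only [map_smul, LinearMap.smul_apply, smul_eq_mul]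
  rw [← mul_assoc, ← pow_two, hr, inv_mul_cancel₀ hv]

theorem fierz (hK : R4 K) (x : S) : D.γ (D.e x x) x = D.β x x • x := by
  obtain ⟨ε, h1⟩ := D.exists_unit hK
  obtain ⟨σ, b, hσ, hb, rfl⟩ : ∃ σ b, D.γ ε σ = σ ∧ D.γ ε b = -b ∧ x = σ + b := by
    refine ⟨(1 / 2 : K) • (x + D.γ ε x), (1 / 2 : K) • (x - D.γ ε x), ?_, ?_, by module⟩
    · rw [map_smul, map_add, D.sq, h1]; module
    · rw [map_smul, map_sub, D.sq, h1]; module
  have t1 := D.tri h1 hσ hb
  have t2 := D.tri (ε := -ε) (σ := b) (b := σ) (by simp [h1]) (by simp [hb]) (by simp [hσ])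
  have e1 := D.I0 σ ε
  have e2 := D.I0 b (-ε)
  rw [hσ] at e1
  rw [show D.γ (-ε) b = b by simp [hb]] at e2
  have o := D.E_orth hσ hb
  rw [D.es b σ] at t2
  simp only [map_add, LinearMap.add_apply, e1, e2, D.es b σ, D.βs b σ, o, t1, t2, map_smul, map_neg,
    LinearMap.smul_apply, LinearMap.neg_apply, hσ, hb]
  module

theorem F3 (hK : R4 K) (x y z : S) : D.γ (D.e x y) z + D.γ (D.e y z) x + D.γ (D.e x z) y =
    D.β x y • z + D.β y z • x + D.β x z • y := by
  have h1 := D.fierz hK (x + y + z)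
  have h2 := D.fierz hK (x + y)
  have h3 := D.fierz hK (x + z)
  have h4 := D.fierz hK (y + z)
  simp only [map_add, LinearMap.add_apply, D.es y x, D.es z x, D.es z y, D.βs y x, D.βs z x,
    D.βs z y] at h1 h2 h3 h4
  linear_combination (norm := module) (1 / 2 : K) • (h1 - h2 - h3 - h4 + D.fierz hK x + D.fierz hK y +
    D.fierz hK z)

end Sp

end Pool.Agent.Lib.MP_97eeef_nt.S9
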