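import Pool.Agent.Lib.MP_97eeef_nt.S9.Pure

/-!
A conic of pure spinors and the pencil of size four on it.
-/

open Module

namespace Pool.Agent.Lib.MP_97eeef_nt.S9

variable {K V S : Type*} [Field K] [AddCommGroup V] [Module K V] [AddCommGroup S] [Module K S]

section conic

variable [CharZero K] [FiniteDimensional K S] {L : S →ₗ[K] S →ₗ[K] K}

omit [CharZero K] in
theorem exists_ne (P : Submodule K S) (h : 1 ≤ finrank K P) : ∃ x ∈ P, x ≠ 0 :=
  (Submodule.ne_bot_iff _).1 (Submodule.one_le_finrank_iff.1 h)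

omit [CharZero K] in
theorem null_in (hK : R4 K) (hL : ∀ x y, L x y = L y x) (P : Submodule K S)
    (h : 2 ≤ finrank K P) : ∃ z ∈ P, z ≠ 0 ∧ L z z = 0 := by
  obtain ⟨x, hx, x0⟩ := exists_ne P (by omega)
  obtain ⟨f, hf⟩ := exists_fun (K := K) x0
  obtain ⟨y, hy, y0⟩ := exists_ne (P ⊓ LinearMap.ker f) (by have := rank_fun P f; omega)
  obtain ⟨s, t, hst, e⟩ := bin2 hK (L x x) (2 * L x y) (L y y)
  refine ⟨s • x + t • y, P.add_mem (P.smul_mem _ hx) (P.smul_mem _ hy.1), fun h0 => ?_, ?_⟩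
  · have hs : s = 0 := by simpa [hf, LinearMap.mem_ker.1 hy.2] using congrArg f h0
    rw [hs, zero_smul, zero_add] at h0
    exact hst.elim (fun h => h hs) fun h => y0 ((smul_eq_zero.1 h0).resolve_left h)
  · simp only [map_add, map_smul, LinearMap.add_apply, LinearMap.smul_apply, smul_eq_mul, hL y x]
    linear_combination e

theorem conic (hK : R4 K) (hL : ∀ x y, L x y = L y x) (P : Submodule K S) (h : 3 ≤ finrank K P) :
    (∃ x ∈ P, ∃ y ∈ P, Ind2 K x y ∧ L x x = 0 ∧ L x y = 0 ∧ L y y = 0) ∨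
    ∃ x ∈ P, ∃ y ∈ P, ∃ z ∈ P, L x x = 0 ∧ L z z = 0 ∧ L x y = 0 ∧ L y z = 0 ∧ L x z ≠ 0 ∧
      L y y + 2 * L x z = 0 := by
  obtain ⟨x, hx, x0, xx⟩ := null_in hK hL P (by omega)
  have ind : ∀ (f : S →ₗ[K] K) (y : S), f x = 1 → f y = 0 → y ≠ 0 → Ind2 K x y :=
    fun f y h1 h2 y0 s t e => by
      have hs : s = 0 := by simpa [h1, h2] using congrArg f e
      rw [hs, zero_smul, zero_add] at e
      exact ⟨hs, (smul_eq_zero.1 e).resolve_right y0⟩
  by_cases h1 : ∀ y ∈ P, L x y = 0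
  · obtain ⟨f, hf⟩ := exists_fun (K := K) x0
    obtain ⟨y, hy, y0, yy⟩ := null_in hK hL (P ⊓ LinearMap.ker f)
      (by have := rank_fun P f; omega)
    exact Or.inl ⟨x, hx, y, hy.1, ind f y hf hy.2 y0, xx, h1 y hy.1, yy⟩
  push Not at h1
  obtain ⟨w, hw, xw⟩ := h1
  obtain ⟨z, hz, xz, zz⟩ : ∃ z ∈ P, L x z = 1 ∧ L z z = 0 := by
    refine ⟨(L x w)⁻¹ • w - (L w w / (2 * L x w ^ 2)) • x,
      P.sub_mem (P.smul_mem _ hw) (P.smul_mem _ hx), ?_, ?_⟩
    · simp [xx, xw]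
    · simp only [map_sub, map_smul, LinearMap.sub_apply, LinearMap.smul_apply, smul_eq_mul, hL w x,
        xx]
      field_simp
      ring
  obtain ⟨y, hy, y0⟩ := exists_ne (P ⊓ LinearMap.ker (L x) ⊓ LinearMap.ker (L z)) (by
    have := rank_fun P (L x)
    have := rank_fun (P ⊓ LinearMap.ker (L x)) (L z)
    omega)
  by_cases yy : L y y = 0
  · exact Or.inl ⟨x, hx, y, hy.1.1, ind (L z) y (by rw [hL, xz]) hy.2 y0, xx, hy.1.2, yy⟩
  refine Or.inr ⟨x, hx, y, hy.1.1, (-(L y y / 2)) • z, P.smul_mem _ hz, xx, by simp [zz], hy.1.2,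
    by simp [hL y z, LinearMap.mem_ker.1 hy.2], by simp [xz, yy], ?_⟩
  simp only [map_smul, smul_eq_mul, xz]
  ring

omit [CharZero K] in
theorem prod_le (P : Submodule K S) :
    finrank K (P.prod (⊤ : Submodule K (K × K))) ≤ finrank K P + 2 := by
  have h1 := rank_le (P.prod (⊤ : Submodule K (K × K))) (LinearMap.snd K S (K × K)) ⊤
    fun _ _ => trivial
  have h2 := rank_inj (P.prod (⊤ : Submodule K (K × K)) ⊓ LinearMap.ker (LinearMap.snd K S (K × K)))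
    (LinearMap.fst K S (K × K)) P (fun a ha => ha.1.1) fun a ha h => Prod.ext h ha.2
  rw [finrank_top, finrank_prod, finrank_self] at h1
  omega

end conic

namespace Sp

variable [CharZero K] [FiniteDimensional K V] [FiniteDimensional K S] (D : Sp K V S)

set_option linter.unusedSectionVars false

/-- the form on an eigenspace whose null vectors are the pure spinors -/
def lam (g : V) : S →ₗ[K] S →ₗ[K] K := (2 : K) • (D.β ∘ₗ D.γ g)

theorem lam_apply (g : V) (x y : S) : D.lam g x y = 2 * D.β (D.γ g x) y := rfl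

theorem lam_symm (g : V) (x y : S) : D.lam g x y = D.lam g y x := by
  rw [lam_apply, lam_apply, D.adj, D.βs]

variable {D} {ε g : V} {c : K} {n : S} {μ : (Fin 4 → K) →ₗ[K] S}

theorem rep (hg : 2 * D.B ε g = 1) {x : S} (hx : D.γ ε x = c • x) :
    D.γ ε (D.γ g x) + c • D.γ g x = x := by
  have := D.cl ε g x
  rwa [hg, one_smul, hx, map_smul] at this

theorem e_E (hg : 2 * D.B ε g = 1) {x y : S} (hx : D.γ ε x = c • x) (hy : D.γ ε y = c • y) :
    D.e x y = D.lam g x y • ε := by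
  refine D.extV fun v => ?_
  rw [D.he, D.adj]
  conv_lhs => rw [← rep hg hx]
  rw [map_add, LinearMap.add_apply, D.adj ε, D.cl' ε v, hy]
  simp only [map_sub, map_smul, LinearMap.smul_apply, smul_eq_mul, lam_apply]
  ring

theorem β_E (hg : 2 * D.B ε g = 1) {x y : S} (hx : D.γ ε x = c • x) (hy : D.γ ε y = c • y) :
    D.β x y = c * D.lam g x y := by
  conv_lhs => rw [← rep hg hx]
  rw [map_add, LinearMap.add_apply, D.adj ε, hy]
  simp only [map_smul, LinearMap.smul_apply, smul_eq_mul, lam_apply]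
  ring

theorem skew {x y : S} (h : D.β x y = 0) (v : V) :
    D.lam g (D.γ v x) y = -D.lam g (D.γ v y) x := by
  have := congrArg (D.β · y) (D.cl g v x)
  simp only [map_add, map_smul, LinearMap.add_apply, LinearMap.smul_apply, h, smul_zero] at this
  rw [lam_apply, lam_apply, D.βs (D.γ g (D.γ v y)) x, ← D.adj g x, ← D.adj v]
  linear_combination 2 * this

theorem lint {x y : S} {v : V} (hx : D.γ v x = 0) (hy : D.γ v y = 0) (hv : D.B g v = 0)
    (h : D.lam g x y ≠ 0) : v = 0 := by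
  have := D.I1 (D.γ g x) y v
  rw [hy, D.cl' v g, hx, D.Bs v g, hv] at this
  simp only [map_zero, mul_zero, zero_smul, sub_zero, add_zero] at this
  exact (smul_eq_zero.1 this.symm).resolve_left h

variable (D ε g c n μ) in
/-- the space containing the conic -/
def Pi : Submodule K S :=
  D.E ε c ⊓ LinearMap.ker (μ.dualMap ∘ₗ D.β) ⊓ LinearMap.ker (D.lam g n)

theorem mem_Pi {x : S} : x ∈ D.Pi ε g c n μ ↔
    (D.γ ε x = c • x ∧ ∀ a, D.β x (μ a) = 0) ∧ D.lam g n x = 0 := by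
  simp [Pi, D.mem_E, LinearMap.ext_iff]

theorem Pi_ge (h : D.B ε ε = c ^ 2) : 3 ≤ finrank K (D.Pi ε g c n μ) := by
  have h1 := D.E_ge h
  have h2 := rank_le (D.E ε c) (μ.dualMap ∘ₗ D.β) ⊤ fun _ _ => trivial
  have h3 := rank_fun (D.E ε c ⊓ LinearMap.ker (μ.dualMap ∘ₗ D.β)) (D.lam g n)
  rw [finrank_top, Subspace.dual_finrank_eq, finrank_fin_fun] at h2
  unfold Pi
  omega

theorem Pi_n (hg : 2 * D.B ε g = 1) (hn : D.γ ε n = c • n) {x : S} (hx : x ∈ D.Pi ε g c n μ) :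
    D.β x n = 0 ∧ D.e x n = 0 := by
  obtain ⟨⟨h1, -⟩, h2⟩ := mem_Pi.1 hx
  rw [β_E hg h1 hn, e_E hg h1 hn, D.lam_symm, h2]
  simp

theorem Pi_zero (hg : 2 * D.B ε g = 1) {x y : S} (hx : x ∈ D.Pi ε g c n μ)
    (hy : y ∈ D.Pi ε g c n μ) (h : D.lam g x y = 0) : D.e x y = 0 ∧ D.β x y = 0 := by
  rw [β_E hg (mem_Pi.1 hx).1.1 (mem_Pi.1 hy).1.1, e_E hg (mem_Pi.1 hx).1.1 (mem_Pi.1 hy).1.1, h]
  simp

theorem Pi_R (hK : R4 K) (hg : 2 * D.B ε g = 1) {x y : S} (hx : x ∈ D.Pi ε g c n μ)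
    (hy : y ∈ D.Pi ε g c n μ) (h : D.lam g x y = 0) (a : Fin 4 → K) :
    D.γ (D.e y (μ a)) x = -D.γ (D.e x (μ a)) y := by
  have := D.F3 hK x y (μ a)
  rw [(Pi_zero hg hx hy h).1, (Pi_zero hg hx hy h).2, (mem_Pi.1 hx).1.2, (mem_Pi.1 hy).1.2,
    map_zero, LinearMap.zero_apply] at this
  linear_combination (norm := module) this

theorem perp_e {x : S} (hx : D.γ ε x = c • x) {y : S} (h : c * D.β x y = 0) :
    D.e x y ∈ LinearMap.ker (D.B ε) := by
  rw [LinearMap.mem_ker, D.Bs, D.he, hx, map_smul, LinearMap.smul_apply, smul_eq_mul, h]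

theorem Z_le (hK : R4 K) (hg : 2 * D.B ε g = 1) {x : S} (hx : D.γ ε x = c • x) (px : D.Pure x)
    (x0 : x ≠ 0) : finrank K ((LinearMap.ker (D.B ε)).map (D.γ.flip x)) ≤ 4 := by
  have h1 := rank_eq (LinearMap.ker (D.B ε)) (D.γ.flip x)
  have h2 : D.W x ≤ LinearMap.ker (D.B ε) ⊓ LinearMap.ker (D.γ.flip x) := fun u hu => ⟨by
    have := D.cl ε u x
    rw [hx, map_smul, D.mem_W.1 hu, map_zero, smul_zero, add_zero] at this
    simpa using (smul_eq_zero.1 this.symm).resolve_right x0, hu⟩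
  have h3 := Submodule.finrank_mono h2
  have h4 := px.W_ge hK
  have h5 : finrank K (LinearMap.ker (D.B ε)) < finrank K V := Submodule.finrank_lt fun h => by
    have : D.B ε g = 0 := LinearMap.mem_ker.1 (h ▸ Submodule.mem_top)
    simp [this] at hg
  rw [D.dV] at h5
  omega

theorem smooth (hK : R4 K) (hg : 2 * D.B ε g = 1) (hn : D.γ ε n = c • n) {x y z : S}
    (hx : x ∈ D.Pi ε g c n μ) (hy : y ∈ D.Pi ε g c n μ) (hz : z ∈ D.Pi ε g c n μ)
    (xx : D.lam g x x = 0) (zz : D.lam g z z = 0) (xy : D.lam g x y = 0) (yz : D.lam g y z = 0)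
    (xz : D.lam g x z ≠ 0) (yy : D.lam g y y + 2 * D.lam g x z = 0) : D.Goal n μ := by
  have yy0 : D.lam g y y ≠ 0 := fun h => xz (by linear_combination (1 / 2 : K) * (yy - h))
  have ex := (mem_Pi.1 hx).1.1
  have ey := (mem_Pi.1 hy).1.1
  have ez := (mem_Pi.1 hz).1.1
  have px : D.Pure x := Pi_zero hg hx hx xx
  have pz : D.Pure z := Pi_zero hg hz hz zz
  have x0 : x ≠ 0 := fun h => xz (by simp [h])
  have wx : ∀ a, D.γ (D.e x (μ a)) x = 0 := fun a => by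
    rw [px.F2 hK, (mem_Pi.1 hx).1.2, zero_smul]
  have wz : ∀ a, D.γ (D.e z (μ a)) z = 0 := fun a => by
    rw [pz.F2 hK, (mem_Pi.1 hz).1.2, zero_smul]
  have fin : ∀ (s t : K) (a : Fin 4 → K), (s ≠ 0 ∨ t ≠ 0) → a ≠ 0 →
      s • D.γ (D.e y (μ a)) x + t • D.γ (D.e z (μ a)) x = 0 →
      (c ≠ 0 ∨ s ^ 2 * D.B g (D.e x (μ a)) + s * t * D.B g (D.e y (μ a)) +
        t ^ 2 * D.B g (D.e z (μ a)) = 0) → D.Goal n μ := by
    intro s t a hst ha hP hc
    have hσ : s ^ 2 • x + (s * t) • y + t ^ 2 • z ∈ D.Pi ε g c n μ :=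
      add_mem (add_mem (Submodule.smul_mem _ _ hx) (Submodule.smul_mem _ _ hy))
        (Submodule.smul_mem _ _ hz)
    have l1 : D.lam g (s ^ 2 • x + (s * t) • y + t ^ 2 • z) x = t ^ 2 * D.lam g x z := by
      simp [xx, xy, D.lam_symm g y x, D.lam_symm g z x]
    have l2 : D.lam g (s ^ 2 • x + (s * t) • y + t ^ 2 • z) z = s ^ 2 * D.lam g x z := by
      simp [zz, yz]
    have l3 : D.lam g (s ^ 2 • x + (s * t) • y + t ^ 2 • z) y = s * t * D.lam g y y := by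
      simp [xy, yz, D.lam_symm g z y]
    have ev : D.e (s ^ 2 • x + (s * t) • y + t ^ 2 • z) (μ a) =
        s ^ 2 • D.e x (μ a) + (s * t) • D.e y (μ a) + t ^ 2 • D.e z (μ a) := by simp
    set σ := s ^ 2 • x + (s * t) • y + t ^ 2 • z with hdef
    have pσ : D.Pure σ := Pi_zero hg hσ hσ (by
      change D.lam g σ (s ^ 2 • x + (s * t) • y + t ^ 2 • z) = 0
      simp only [map_add, map_smul, smul_eq_mul, l1, l2, l3]
      linear_combination s ^ 2 * t ^ 2 * yy)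
    have σ0 : σ ≠ 0 := fun h => by
      rw [h, map_zero, LinearMap.zero_apply] at l1 l2
      rcases hst with h1 | h1
      · exact mul_ne_zero (pow_ne_zero 2 h1) xz l2.symm
      · exact mul_ne_zero (pow_ne_zero 2 h1) xz l1.symm
    obtain ⟨p, q, ep, eq, pq, vp, vq⟩ : ∃ p q, D.γ ε p = c • p ∧ D.γ ε q = c • q ∧
        D.lam g p q ≠ 0 ∧ D.γ (D.e σ (μ a)) p = 0 ∧ D.γ (D.e σ (μ a)) q = 0 := by
      by_cases ht : t = 0
      · have hs : s ≠ 0 := hst.resolve_right (not_not.2 ht)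
        have h1 : D.γ (D.e σ (μ a)) y = 0 := by
          rw [ht, zero_smul, add_zero, Pi_R hK hg hx hy xy] at hP
          rw [ev, ht]
          simp [neg_eq_zero.1 ((smul_eq_zero.1 hP).resolve_left hs)]
        exact ⟨y, y, ey, ey, yy0, h1, h1⟩
      · refine ⟨σ, x, (mem_Pi.1 hσ).1.1, ex, l1 ▸ mul_ne_zero (pow_ne_zero 2 ht) xz,
          by rw [pσ.F2 hK, (mem_Pi.1 hσ).1.2, zero_smul], ?_⟩
        rw [ev]
        simp only [map_add, map_smul, LinearMap.add_apply, LinearMap.smul_apply, wx]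
        linear_combination (norm := module) t • hP
    refine goal_of_pure hK pσ σ0 (Pi_n hg hn hσ).1 (mem_Pi.1 hσ).1.2 (Pi_n hg hn hσ).2 ha ?_
    rcases hc with hc | hc
    · have := D.I1 p q (D.e σ (μ a))
      rw [vp, vq, map_zero, map_zero, add_zero, β_E hg ep eq] at this
      exact (smul_eq_zero.1 this.symm).resolve_left (mul_ne_zero two_ne_zero (mul_ne_zero hc pq))
    · exact lint vp vq (by rw [ev]; simpa using hc) pq
  have hZ := Z_le hK hg ex px x0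
  have mZ : ∀ w ∈ D.Pi ε g c n μ, ∀ a,
      D.γ (D.e w (μ a)) x ∈ (LinearMap.ker (D.B ε)).map (D.γ.flip x) := fun w hw a =>
    ⟨_, perp_e (mem_Pi.1 hw).1.1 (by rw [(mem_Pi.1 hw).1.2, mul_zero]), rfl⟩
  by_cases hc : c ≠ 0
  · obtain ⟨s, t, a, hst, ha, e⟩ := pencil' hK (D.γ.flip x ∘ₗ D.e y ∘ₗ μ) (D.γ.flip x ∘ₗ D.e z ∘ₗ μ)
      _ (mZ y hy) (mZ z hz) (by simp) (by simp) (by simpa using hZ)
    exact fin s t a hst ha e (Or.inl hc)
  obtain rfl : c = 0 := not_not.1 hc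
  have b0 : ∀ {p q : S}, D.γ ε p = (0 : K) • p → D.γ ε q = (0 : K) • q → D.β p q = 0 :=
    fun hp hq => by rw [β_E hg hp hq, zero_mul]
  have sk : ∀ {p : S}, D.γ ε p = (0 : K) • p → ∀ v, D.lam g (D.γ v p) p = 0 := fun hp v => by
    linear_combination (1 / 2 : K) * skew (g := g) (b0 hp hp) v
  set Z := (LinearMap.ker (D.B ε)).map (D.γ.flip x)
  have hZ' : finrank K (Z ⊓ LinearMap.ker ((D.lam g y).prod (D.lam g z)) : Submodule K S) ≤ 2 := by
    have h1 := rank_eq Z ((D.lam g y).prod (D.lam g z))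
    have bx : D.β x (D.γ g z) ≠ 0 := fun h => xz (by rw [lam_apply, D.adj, h, mul_zero])
    have m1 : D.γ (D.e x (D.γ g z)) x ∈ Z := ⟨_, perp_e ex (zero_mul _), rfl⟩
    have m2 : D.γ (D.e y (D.γ g z)) x ∈ Z := ⟨_, perp_e ey (zero_mul _), rfl⟩
    have v2 : D.lam g y (D.γ (D.e y (D.γ g z)) x) = D.β x (D.γ g z) * D.lam g y y := by
      have h2 := congrArg (D.lam g y) (D.F3 hK x y (D.γ g z))
      rw [(Pi_zero hg hx hy xy).1, (Pi_zero hg hx hy xy).2] at h2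
      simp only [map_add, map_smul, map_zero, LinearMap.zero_apply, smul_eq_mul,
        D.lam_symm g y x, xy, D.lam_symm g y (D.γ _ y), sk ey] at h2
      linear_combination h2
    rw [px.F2 hK] at m1
    have hi : Ind2 K (((D.lam g y).prod (D.lam g z)) (D.β x (D.γ g z) • x))
        (((D.lam g y).prod (D.lam g z)) (D.γ (D.e y (D.γ g z)) x)) := fun s t e => by
      have e1 := congrArg Prod.fst e
      have e2 := congrArg Prod.snd e
      simp [v2, D.lam_symm g y x, xy, bx, yy0] at e1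
      simp [e1, D.lam_symm g z x, xz, bx] at e2
      exact ⟨e2, e1⟩
    have h2 : Submodule.span K (Set.range ![_, _]) ≤ Z.map ((D.lam g y).prod (D.lam g z)) :=
      Submodule.span_le.2 (by
        rintro _ ⟨i, rfl⟩
        fin_cases i
        · exact Submodule.mem_map_of_mem m1
        · exact Submodule.mem_map_of_mem m2)
    have h3 := Submodule.finrank_mono h2
    rw [finrank_span_eq_card hi.li, Fintype.card_fin] at h3
    omega
  have k1 : ∀ a, D.lam g y (D.γ (D.e y (μ a)) x) = 0 := fun a => by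
    rw [Pi_R hK hg hx hy xy, map_neg, D.lam_symm, sk ey, neg_zero]
  have k2 : ∀ a, D.lam g z (D.γ (D.e z (μ a)) x) = 0 := fun a => by
    rw [D.lam_symm, skew (b0 ex ez), wz]; simp
  have k3 : ∀ a, D.lam g y (D.γ (D.e z (μ a)) x) = -D.lam g z (D.γ (D.e y (μ a)) x) := fun a => by
    rw [D.lam_symm, skew (b0 ex ey), Pi_R hK hg hy hz yz, D.lam_symm g z, skew (b0 ex ez)]
    simp
  obtain ⟨ρ, ρi, hρ⟩ := exists_inj 3 (r := 1)
    (LinearMap.pi fun _ => D.lam g z ∘ₗ D.γ.flip x ∘ₗ D.e y ∘ₗ μ) (by simp)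
  have hρ' : ∀ b, D.lam g z (D.γ (D.e y (μ (ρ b))) x) = 0 := fun b => congrFun (hρ b) 0
  let π : ((Fin 3 → K) × K) →ₗ[K] S := μ ∘ₗ ρ ∘ₗ LinearMap.fst _ _ _
  let τ : ((Fin 3 → K) × K) →ₗ[K] K := LinearMap.snd _ _ _
  obtain ⟨s, t, ⟨b, m⟩, hst, hb, e⟩ := pencil' hK
    ((D.γ.flip x ∘ₗ D.e y ∘ₗ π).prod ((D.B g ∘ₗ D.e x ∘ₗ π).prod τ))
    ((D.γ.flip x ∘ₗ D.e z ∘ₗ π).prod ((D.B g ∘ₗ D.e y ∘ₗ π - τ).prod (D.B g ∘ₗ D.e z ∘ₗ π)))
    ((Z ⊓ LinearMap.ker ((D.lam g y).prod (D.lam g z))).prod ⊤)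
    (fun b => ⟨⟨mZ y hy _, Prod.ext (k1 _) (hρ' _)⟩, trivial⟩)
    (fun b => ⟨⟨mZ z hz _, Prod.ext ((k3 _).trans (neg_eq_zero.2 (hρ' _))) (k2 _)⟩, trivial⟩)
    (by simp) (by simp) (by
      refine (prod_le _).trans ?_
      simp only [finrank_prod, finrank_self, finrank_fin_fun]
      omega)
  have e1 : s • D.γ (D.e y (μ (ρ b))) x + t • D.γ (D.e z (μ (ρ b))) x = 0 := congrArg Prod.fst e
  have e2 : s * D.B g (D.e x (μ (ρ b))) + t * (D.B g (D.e y (μ (ρ b))) - m) = 0 :=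
    congrArg (fun p => p.2.1) e
  have e3 : s * m + t * D.B g (D.e z (μ (ρ b))) = 0 := congrArg (fun p => p.2.2) e
  refine fin s t (ρ b) hst (fun h => hb ?_) e1 (Or.inr (by linear_combination s * e2 + t * e3))
  obtain rfl : b = 0 := ρi (h.trans (map_zero ρ).symm)
  simp only [map_zero, mul_zero, zero_add, zero_sub, mul_neg, neg_eq_zero, mul_eq_zero,
    add_zero] at e2 e3
  have : m = 0 := by tauto
  rw [this]; rfl

theorem goal (hK : R4 K) (n : S) (μ : (Fin 4 → K) →ₗ[K] S) : D.Goal n μ := by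
  obtain ⟨ε, c, ε0, h1, h2⟩ : ∃ (ε : V) (c : K), ε ≠ 0 ∧ D.B ε ε = c ^ 2 ∧ D.γ ε n = c • n := by
    by_cases n0 : n = 0
    · obtain ⟨ε, h⟩ := D.exists_unit hK
      exact ⟨ε, 1, by rintro rfl; simp at h, by simpa using h, by simp [n0]⟩
    have key : ∀ (ε : V) (c : K), D.γ ε n = c • n → D.B ε ε = c ^ 2 := fun ε c h => by
      have := D.sq ε n
      rw [h, map_smul, h, smul_smul, ← pow_two] at this
      exact (smul_left_injective K n0 this).symm
    by_cases he : D.e n n = 0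
    · have h1 := D.fierz hK n
      rw [he, map_zero, LinearMap.zero_apply] at h1
      have pn : D.Pure n := ⟨he, (smul_eq_zero.1 h1.symm).resolve_right n0⟩
      obtain ⟨ε, hε, ε0⟩ := exists_ne (D.W n) (by have := pn.W_ge hK; omega)
      have h2 : D.γ ε n = (0 : K) • n := by rw [zero_smul]; exact hε
      exact ⟨ε, 0, ε0, key _ _ h2, h2⟩
    · exact ⟨_, _, he, key _ _ (D.fierz hK n), D.fierz hK n⟩
  obtain ⟨g, hg⟩ : ∃ g, 2 * D.B ε g = 1 := by
    by_contra h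
    push Not at h
    refine ε0 (D.Bn.1 _ fun w => by_contra fun hw => h ((2 * D.B ε w)⁻¹ • w) ?_)
    rw [map_smul, smul_eq_mul]
    field_simp
  rcases conic hK (D.lam_symm g) _ (Pi_ge (g := g) (n := n) (μ := μ) h1) with
    ⟨x, hx, y, hy, hi, xx, xy, yy⟩ | ⟨x, hx, y, hy, z, hz, xx, zz, xy, yz, xz, yy⟩
  · exact line hK hi (Pi_zero hg hx hx xx) (Pi_zero hg hy hy yy) (Pi_zero hg hx hy xy).1
      (Pi_zero hg hx hy xy).2 ⟨(Pi_n hg h2 hx).1, (mem_Pi.1 hx).1.2⟩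
      ⟨(Pi_n hg h2 hy).1, (mem_Pi.1 hy).1.2⟩ (Pi_n hg h2 hx).2 (Pi_n hg h2 hy).2
  · exact smooth hK hg h2 hx hy hz xx zz xy yz xz yy

end Sp

end Pool.Agent.Lib.MP_97eeef_nt.S9
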