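import Pool.Agent.Lib.MP_97eeef_nt.S9.Conic

/-!
The invariant symmetric form on a spin module, and the main theorem.
-/

open Module

namespace Pool.Agent.Lib.MP_97eeef_nt.S9

universe u

variable {K : Type*} [Field K] [CharZero K]

theorem exists_form {i : K} (hi : i * i = -1) (k : ℕ) :
    ∀ (S : Type u) [AddCommGroup S] [Module K S] (γ : ℕ → S →ₗ[K] S), finrank K S = 2 ^ k →
      (∀ j < 2 * k + 1, ∀ x, γ j (γ j x) = x) →
      (∀ j < 2 * k + 1, ∀ l < 2 * k + 1, j ≠ l → ∀ x, γ j (γ l x) = -γ l (γ j x)) →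
      ∃ β : S →ₗ[K] S →ₗ[K] K, (∀ x, (∀ y, β x y = 0) → x = 0) ∧
        (∀ x y, β y x = (∏ j ∈ Finset.range (k + 1), (-1) ^ j) * β x y) ∧
        ∀ j < 2 * k + 1, ∀ x y, β (γ j x) y = (-1) ^ k * β x (γ j y) := by
  induction k with
  | zero =>
    intro S _ _ γ hS _ _
    obtain ⟨v, hv0, hv⟩ := finrank_eq_one_iff'.1 (hS.trans (pow_zero 2))
    obtain ⟨f, hf⟩ := exists_fun (K := K) hv0
    refine ⟨(LinearMap.mul K K).compl₁₂ f f, fun x hx => ?_, fun x y => by simp [mul_comm],
      fun j _ x y => ?_⟩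
    · obtain ⟨c, rfl⟩ := hv x
      have : c = 0 := by simpa [hf] using hx v
      simp [this]
    · obtain ⟨c, rfl⟩ := hv x
      obtain ⟨d, rfl⟩ := hv y
      simp [hf, mul_comm, mul_left_comm]
  | succ k ih =>
    intro S _ _ γ hS h1 h2
    have : FiniteDimensional K S := FiniteDimensional.of_finrank_pos (by rw [hS]; positivity)
    obtain ⟨a, ha⟩ : ∃ a, a = γ (2 * k + 1) := ⟨_, rfl⟩
    obtain ⟨b, hb⟩ : ∃ b, b = γ (2 * k + 2) := ⟨_, rfl⟩
    have aa : ∀ x, a (a x) = x := ha ▸ h1 _ (by omega)
    have bb : ∀ x, b (b x) = x := hb ▸ h1 _ (by omega)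
    have ba : ∀ x, b (a x) = -a (b x) := ha ▸ hb ▸ h2 _ (by omega) _ (by omega) (by omega)
    have ga : ∀ j < 2 * k + 1, ∀ x, γ j (a x) = -a (γ j x) := fun j hj =>
      ha ▸ h2 _ (by omega) _ (by omega) (by omega)
    have gb : ∀ j < 2 * k + 1, ∀ x, γ j (b x) = -b (γ j x) := fun j hj =>
      hb ▸ h2 _ (by omega) _ (by omega) (by omega)
    have ii : ∀ x : S, i • i • x = -x := fun x => by rw [smul_smul, hi, neg_one_smul]
    let T : Submodule K S := LinearMap.ker (i • (a ∘ₗ b) - LinearMap.id)
    have mT : ∀ x, x ∈ T ↔ i • a (b x) = x := fun x => by simp [T, sub_eq_zero]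
    let p : S →ₗ[K] T := ((1 / 2 : K) • (LinearMap.id + i • (a ∘ₗ b))).codRestrict T fun x => by
      rw [mT]
      simp only [LinearMap.smul_apply, LinearMap.add_apply, LinearMap.id_apply,
        LinearMap.comp_apply, map_smul, map_add, ba, bb, aa, map_neg]
      linear_combination (norm := module) (-(1 / 2 : K) * hi) • x
    have cp : ∀ x, (p x : S) = (1 / 2 : K) • (x + i • a (b x)) := fun _ => rfl
    have pT : ∀ z : T, p z = z := fun z => Subtype.ext (by rw [cp, (mT _).1 z.2]; module)
    have paT : ∀ z : T, p (a z) = 0 := fun z => Subtype.ext (by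
      have := congrArg a ((mT _).1 z.2)
      rw [map_smul, aa] at this
      rw [cp, ba, map_neg, aa, ← this]
      simp)
    have dec : ∀ x, x = (p x : S) + a (p (a x)) := fun x => by
      simp only [cp, ba, map_neg, aa, map_smul, map_add]
      module
    have pg : ∀ j < 2 * k + 1, ∀ x, (p (γ j x) : S) = γ j (p x) := fun j hj x => by
      simp only [cp, map_smul, map_add, ga j hj, gb j hj, map_neg, neg_neg]
    have hT : finrank K T = 2 ^ k := by
      have e := LinearEquiv.ofBijective (p.prod (p ∘ₗ a)) ⟨fun x y h => by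
        rw [dec x, dec y, show p x = p y from congrArg Prod.fst h,
          show p (a x) = p (a y) from congrArg Prod.snd h],
        fun z => ⟨z.1 + a z.2, Prod.ext (by simp [pT, paT]) (by simp [pT, paT, aa])⟩⟩
      have := e.finrank_eq
      rw [finrank_prod, hS, pow_succ] at this
      omega
    obtain ⟨β, n1, n2, n3⟩ := ih T (fun j => p ∘ₗ γ j ∘ₗ T.subtype) hT
      (fun j hj x => by
        simp only [LinearMap.comp_apply, Submodule.subtype_apply, pg j hj, pT,
          h1 j (by omega)])
      (fun j hj l hl hjl x => by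
        simp only [LinearMap.comp_apply, Submodule.subtype_apply, pg j hj, pg l hl, pT,
          h2 j (by omega) l (by omega) hjl, map_neg])
    have sq : (-1 : K) ^ k * (-1) ^ k = 1 := by rw [← mul_pow]; simp
    refine ⟨β.compl₁₂ p (p ∘ₗ a) + (-1 : K) ^ (k + 1) • β.compl₁₂ (p ∘ₗ a) p, fun x hx => ?_,
      fun x y => ?_, fun j hj x y => ?_⟩
    · have e1 : p x = 0 := n1 _ fun z => by simpa [aa, pT, paT] using hx (a z)
      have e2 : p (a x) = 0 := n1 _ fun z => by simpa [aa, pT, paT] using hx z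
      rw [dec x, e1, e2]; simp
    · simp only [LinearMap.add_apply, LinearMap.smul_apply, LinearMap.compl₁₂_apply,
        LinearMap.comp_apply, smul_eq_mul]
      rw [n2 (p (a x)) (p y), n2 (p x) (p (a y)), Finset.prod_range_succ _ (k + 1), pow_succ]
      linear_combination (-(∏ j ∈ Finset.range (k + 1), (-1 : K) ^ j) * β (p (a x)) (p y)) * sq
    simp only [LinearMap.add_apply, LinearMap.smul_apply, LinearMap.compl₁₂_apply,
      LinearMap.comp_apply, smul_eq_mul, pow_succ]
    rcases (by omega : j < 2 * k + 1 ∨ j = 2 * k + 1 ∨ j = 2 * k + 2) with hj | rfl | rfl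
    · have g1 : ∀ x, p (γ j x) = p (γ j (p x)) := fun x => by rw [← pg j hj, pT]
      have g2 : ∀ x, p (a (γ j x)) = -p (γ j (p (a x))) := fun x => by
        rw [← g1, ga j hj, map_neg, neg_neg]
      have m1 := n3 j hj (p x) (p (a y))
      have m2 := n3 j hj (p (a x)) (p y)
      simp only [LinearMap.comp_apply, Submodule.subtype_apply] at m1 m2
      rw [g1 x, g1 y, g2 x, g2 y]
      simp only [map_neg, LinearMap.neg_apply, m1, m2]
      ring
    · rw [← ha, aa, aa]
      linear_combination (-β (p (a x)) (p (a y))) * sq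
    · have g1 : ∀ x, p (b x) = i • p (a x) := fun x => Subtype.ext (by
        simp only [cp, Submodule.coe_smul, ba, bb, aa, map_neg]
        linear_combination (norm := module) ((1 / 2 : K) * hi) • b x)
      have g2 : ∀ x, p (a (b x)) = -i • p x := fun x => Subtype.ext (by
        simp only [cp, Submodule.coe_smul, ba, bb, aa, map_neg]
        linear_combination (norm := module) ((1 / 2 : K) * hi) • a (b x))
      rw [← hb, g1 x, g1 y, g2 x, g2 y]
      simp only [map_smul, LinearMap.smul_apply, smul_eq_mul]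
      linear_combination (-i * β (p (a x)) (p (a y))) * sq

theorem main (hK : R4 K) {V : Type*} {S : Type u} [AddCommGroup V] [Module K V] [AddCommGroup S]
    [Module K S] (Q : QuadraticForm K V) (hQ : Q.Nondegenerate) (hV : finrank K V = 9)
    (hS : finrank K S = 16) (ρ : CliffordAlgebra Q →ₐ[K] Module.End K S)
    (l : Fin 5 → Module.Dual K S) :
    ∃ (U : Submodule K V) (A : Submodule K S), finrank K U = 3 ∧ (∀ u ∈ U, Q u = 0) ∧
      (∀ x, x ∈ A ↔ ∀ u ∈ U, ρ (CliffordAlgebra.ι Q u) x = 0) ∧ finrank K A = 2 ∧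
      ∀ i, ∀ x ∈ A, l i x = 0 := by
  have : FiniteDimensional K V := FiniteDimensional.of_finrank_pos (by omega)
  have : FiniteDimensional K S := FiniteDimensional.of_finrank_pos (by omega)
  let B : V →ₗ[K] V →ₗ[K] K := QuadraticMap.associated Q
  have Bn : LinearMap.BilinForm.Nondegenerate B := QuadraticMap.nondegenerate_associated_iff.2 hQ
  have Bs : ∀ v w, B v w = B w v := QuadraticMap.associated_isSymm K Q
  let γ : V →ₗ[K] S →ₗ[K] S := ρ.toLinearMap ∘ₗ CliffordAlgebra.ι Q
  have cl : ∀ v w x, γ v (γ w x) + γ w (γ v x) = (2 * B v w) • x := fun v w x => by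
    have h1 := congrArg (ρ · x) (CliffordAlgebra.ι_mul_ι_add_swap (Q := Q) v w)
    have h2 := LinearMap.congr_fun₂ (QuadraticMap.two_nsmul_associated K Q) v w
    simp only [map_add, map_mul, AlgHom.commutes, LinearMap.add_apply, Module.End.mul_apply,
      Module.algebraMap_end_apply] at h1
    simp only [LinearMap.smul_apply, QuadraticMap.polarBilin_apply_apply, nsmul_eq_mul,
      Nat.cast_ofNat] at h2
    rw [← h2] at h1
    exact h1
  obtain ⟨v, hv⟩ := LinearMap.BilinForm.exists_orthogonal_basis (B := B) ⟨Bs⟩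
  have v0 := hv.not_isOrtho_basis_self_of_separatingLeft Bn.1
  choose r hr using fun j => sq_root hK (B (v j) (v j))⁻¹
  obtain ⟨i, hi⟩ := sq_root hK (-1 : K)
  obtain ⟨β, n1, n2, n3⟩ := exists_form (i := i) (by rw [← hi, pow_two]) 4 S
    (fun j => if h : j < finrank K V then γ (r ⟨j, h⟩ • v ⟨j, h⟩) else 0) hS
    (fun j hj x => by
      have h : j < finrank K V := by omega
      have h1 := cl (v ⟨j, h⟩) (v ⟨j, h⟩) x
      have h2 : r ⟨j, h⟩ ^ 2 * B (v ⟨j, h⟩) (v ⟨j, h⟩) = 1 := by rw [hr, inv_mul_cancel₀ (v0 _)]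
      simp only [dif_pos h, map_smul, LinearMap.smul_apply]
      linear_combination (norm := module) (r ⟨j, h⟩ ^ 2 / 2) • h1 + h2 • x)
    (fun j hj m hm hjm x => by
      have h : j < finrank K V := by omega
      have h' : m < finrank K V := by omega
      have h1 := cl (v ⟨j, h⟩) (v ⟨m, h'⟩) x
      rw [LinearMap.isOrthoᵢ_def.1 hv _ _ (by simpa using hjm)] at h1
      simp only [dif_pos h, dif_pos h', map_smul, LinearMap.smul_apply]
      linear_combination (norm := module) (r ⟨j, h⟩ * r ⟨m, h'⟩) • h1)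
  have βs : ∀ x y, β x y = β y x := fun x y => by
    rw [n2 y x]; norm_num [Finset.prod_range_succ]
  have adj : ∀ w x y, β (γ w x) y = β x (γ w y) := fun w x y => by
    have : β.flip y ∘ₗ γ.flip x = β x ∘ₗ γ.flip y := v.ext fun j => by
      have h1 := n3 j (by have := j.2; omega) x y
      have h2 : r j ≠ 0 := fun h => inv_ne_zero (v0 j) (by rw [← hr, h]; simp)
      simp only [dif_pos j.2, map_smul, LinearMap.smul_apply, smul_eq_mul] at h1
      exact mul_left_cancel₀ h2 (by simpa using (by linear_combination h1 :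
        r j * β (γ (v j) x) y = r j * β x (γ (v j) y)))
    exact LinearMap.congr_fun this w
  let D : Sp K V S :=
    { B := B, β := β, γ := γ
      e := LinearMap.mk₂ K (fun x y => (LinearMap.BilinForm.toDual B Bn).symm (β.flip y ∘ₗ γ.flip x))
        (fun _ _ _ => by rw [← map_add]; congr 1; ext; simp)
        (fun _ _ _ => by rw [← map_smul]; congr 1; ext; simp)
        (fun _ _ _ => by rw [← map_add]; congr 1; ext; simp)
        (fun _ _ _ => by rw [← map_smul]; congr 1; ext; simp)
      Bs := Bs, Bn := Bn, βs := βs, βn := n1, cl := cl, adj := adj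
      he := fun x y w => LinearMap.BilinForm.apply_toDual_symm_apply (hB := Bn) _ _
      dV := hV, dS := hS }
  have βn : LinearMap.BilinForm.Nondegenerate β := ⟨n1, fun y h => n1 y fun x => by rw [βs, h]⟩
  let m : Fin 5 → S := fun j => (LinearMap.BilinForm.toDual β βn).symm (l j)
  have hm : ∀ j x, β x (m j) = l j x := fun j x => by
    rw [βs]; exact LinearMap.BilinForm.apply_toDual_symm_apply (hB := βn) _ _
  obtain ⟨U, h1, h2, h3⟩ := D.goal hK (m 0) (Fintype.linearCombination K fun j => m j.succ)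
  refine ⟨U, D.Ann U, h1, fun w hw => ?_, fun _ => Iff.rfl, h2, fun j x hx => ?_⟩
  · obtain ⟨x, hx, x0⟩ := exists_ne (D.Ann U) (by omega)
    rw [← QuadraticMap.associated_eq_self_apply K Q w]
    exact Sp.W_orth (D := D) x0 (hx w hw) (hx w hw)
  · rw [← hm]
    refine Fin.cases (h3 x hx).1 (fun j => ?_) j
    simpa using (h3 x hx).2 (Pi.single j 1)

end Pool.Agent.Lib.MP_97eeef_nt.S9
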