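import Pool.Agent.Lib.MP_97eeef_nt.S9.Basic

/-!
Pure spinors, annihilators of isotropic subspaces, and the reduction of the problem to one
pure spinor.
-/

open Module

namespace Pool.Agent.Lib.MP_97eeef_nt.S9

variable {K V S : Type*} [Field K] [AddCommGroup V] [Module K V] [AddCommGroup S] [Module K S]

namespace Sp

variable [CharZero K] [FiniteDimensional K V] [FiniteDimensional K S] (D : Sp K V S)

set_option linter.unusedSectionVars false

/-- pure spinors (and zero) -/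
def Pure (σ : S) : Prop := D.e σ σ = 0 ∧ D.β σ σ = 0

/-- the vectors killing a spinor -/
def W (σ : S) : Submodule K V := LinearMap.ker (D.γ.flip σ)

theorem mem_W {σ : S} {v : V} : v ∈ D.W σ ↔ D.γ v σ = 0 := Iff.rfl

/-- the spinors killed by a subspace -/
def Ann (U : Submodule K V) : Submodule K S where
  carrier := {x | ∀ u ∈ U, D.γ u x = 0}
  add_mem' ha hb u hu := by rw [map_add, ha u hu, hb u hu, add_zero]
  zero_mem' u _ := map_zero _
  smul_mem' c x hx u hu := by rw [map_smul, hx u hu, smul_zero]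

variable {D}

theorem Pure.F2 (hK : R4 K) {σ : S} (h : D.Pure σ) (y : S) : D.γ (D.e σ y) σ = D.β σ y • σ := by
  have := D.F3 hK σ σ y
  rw [h.1, h.2, map_zero, LinearMap.zero_apply] at this
  linear_combination (norm := module) (1 / 2 : K) • this

theorem W_orth {σ : S} (h0 : σ ≠ 0) {u v : V} (hu : D.γ u σ = 0) (hv : D.γ v σ = 0) :
    D.B u v = 0 := by
  have := D.cl u v σ
  rw [hu, hv, map_zero, map_zero, add_zero] at this
  simpa using (smul_eq_zero.1 this.symm).resolve_right h0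

theorem W_le {σ : S} (h0 : σ ≠ 0) : finrank K (D.W σ) ≤ 4 :=
  D.iso_le _ fun _ hx _ hy => W_orth h0 hx hy

theorem stab_le (σ : S) :
    finrank K ((Submodule.span K {σ}).comap (D.γ.flip σ)) ≤ finrank K (D.W σ) + 1 := by
  have h1 := rank_le ((Submodule.span K {σ}).comap (D.γ.flip σ)) (D.γ.flip σ)
    (Submodule.span K {σ}) fun a ha => ha
  have h2 : finrank K ((Submodule.span K {σ}).comap (D.γ.flip σ) ⊓ LinearMap.ker (D.γ.flip σ) :
    Submodule K V) ≤ finrank K (D.W σ) := Submodule.finrank_mono inf_le_right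
  have h3 := span_one (K := K) σ
  omega

theorem Pure.W_ge (hK : R4 K) {σ : S} (h : D.Pure σ) : 4 ≤ finrank K (D.W σ) := by
  have h1 : LinearMap.BilinForm.orthogonal D.B (D.W σ) ≤
      (Submodule.span K {σ}).comap (D.γ.flip σ) := by
    intro v hv
    have h2 : ∀ y, D.β σ y = 0 → D.β (D.γ v σ) y = 0 := fun y hy => by
      rw [← D.he]
      exact hv _ (by rw [D.mem_W, h.F2 hK, hy, zero_smul])
    change D.γ v σ ∈ Submodule.span K {σ}
    rw [Submodule.mem_span_singleton]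
    by_cases h3 : ∃ y, D.β σ y ≠ 0
    · obtain ⟨y, hy⟩ := h3
      refine ⟨D.β (D.γ v σ) y / D.β σ y, D.extS fun z => ?_⟩
      have h4 := h2 (D.β σ y • z - D.β σ z • y) (by simp [mul_comm])
      simp only [map_sub, map_smul, smul_eq_mul, LinearMap.smul_apply] at h4 ⊢
      field_simp
      linear_combination -h4
    · push Not at h3
      exact ⟨0, by simp [D.βn σ h3]⟩
  have h2 := Submodule.finrank_mono h1
  rw [LinearMap.BilinForm.finrank_orthogonal D.Bn, D.dV] at h2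
  have h3 := D.stab_le σ
  omega

variable (D)

theorem half (U : Submodule K V) {f : V} (hf : f ∉ U) :
    2 * finrank K (D.Ann (U ⊔ Submodule.span K {f})) ≤ finrank K (D.Ann U) := by
  obtain ⟨g, hg, hfg⟩ : ∃ g ∈ LinearMap.BilinForm.orthogonal D.B U, D.B g f ≠ 0 := by
    by_contra h
    push Not at h
    refine hf ?_
    rw [← LinearMap.BilinForm.orthogonal_orthogonal D.Bn (fun x y h => by rwa [D.Bs]) U]
    exact h
  set A := D.Ann (U ⊔ Submodule.span K {f})
  have hA : ∀ x ∈ A, D.γ f x = 0 := fun x hx =>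
    hx f (Submodule.mem_sup_right (Submodule.mem_span_singleton_self f))
  have hAU : A ≤ D.Ann U := fun x hx u hu => hx u (Submodule.mem_sup_left hu)
  have key : ∀ x ∈ A, D.γ f (D.γ g x) = 0 → x = 0 := fun x hx h0 => by
    have := D.cl g f x
    rw [h0, hA x hx, map_zero, add_zero] at this
    exact (smul_eq_zero.1 this.symm).resolve_left (mul_ne_zero two_ne_zero hfg)
  have h1 := rank_inj A (D.γ g) _ (fun a ha => Submodule.mem_map_of_mem ha)
    fun a ha h0 => key a ha (by rw [h0, map_zero])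
  have h2 : A ⊓ A.map (D.γ g) = ⊥ := (Submodule.eq_bot_iff _).2 (by
    rintro _ ⟨h3, a, ha, rfl⟩
    rw [key a ha (hA _ h3), map_zero])
  have h3 : A ⊔ A.map (D.γ g) ≤ D.Ann U := sup_le hAU (by
    rintro _ ⟨a, ha, rfl⟩ u hu
    rw [D.cl', hAU ha u hu, hg u hu]
    simp)
  have h4 := Submodule.finrank_sup_add_finrank_inf_eq A (A.map (D.γ g))
  have h5 := Submodule.finrank_mono h3
  rw [h2, finrank_bot] at h4
  omega

theorem chain (U0 : Submodule K V) (k : ℕ) (hk : k ≤ finrank K U0) :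
    ∃ U ≤ U0, finrank K U = k ∧ 2 ^ k * finrank K (D.Ann U) ≤ 16 := by
  induction k with
  | zero => exact ⟨⊥, bot_le, finrank_bot _ _, by simpa [D.dS] using Submodule.finrank_le (D.Ann ⊥)⟩
  | succ k ih =>
    obtain ⟨U, h1, h2, h3⟩ := ih (by omega)
    obtain ⟨f, hf0, hf⟩ : ∃ f ∈ U0, f ∉ U := by
      by_contra h
      push Not at h
      have := Submodule.finrank_mono (show U0 ≤ U from h)
      omega
    refine ⟨U ⊔ Submodule.span K {f}, sup_le h1 ((Submodule.span_singleton_le_iff_mem _ _).2 hf0),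
      by rw [Submodule.finrank_sup_span_singleton hf, h2], ?_⟩
    have := D.half U hf
    rw [pow_succ, mul_assoc]
    exact (Nat.mul_le_mul_left _ this).trans h3

/-- the conclusion -/
def Goal (n : S) (μ : (Fin 4 → K) →ₗ[K] S) : Prop :=
  ∃ U : Submodule K V, finrank K U = 3 ∧ finrank K (D.Ann U) = 2 ∧
    ∀ x ∈ D.Ann U, D.β x n = 0 ∧ ∀ a, D.β x (μ a) = 0

variable {D} {n : S} {μ : (Fin 4 → K) →ₗ[K] S}

theorem goal_of_pair {x y : S} (h : Ind2 K x y) (hx : D.β x n = 0 ∧ ∀ a, D.β x (μ a) = 0)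
    (hy : D.β y n = 0 ∧ ∀ a, D.β y (μ a) = 0)
    (hd : 3 ≤ finrank K (D.W x ⊓ D.W y : Submodule K V)) : D.Goal n μ := by
  obtain ⟨U, h1, h2, h3⟩ := D.chain _ 3 hd
  have h4 : Submodule.span K (Set.range ![x, y]) ≤ D.Ann U := Submodule.span_le.2 (by
    rintro _ ⟨i, rfl⟩ u hu
    fin_cases i
    · exact (h1 hu).1
    · exact (h1 hu).2)
  have h5 : finrank K (Submodule.span K (Set.range ![x, y])) = 2 := by
    simpa using finrank_span_eq_card h.li
  have h6 := Submodule.eq_of_le_of_finrank_le h4 (by omega)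
  refine ⟨U, h2, h6 ▸ h5, fun z hz => ?_⟩
  rw [← h6, Matrix.range_cons, Matrix.range_cons, Matrix.range_empty, Set.union_empty,
    Set.singleton_union, Submodule.mem_span_pair] at hz
  obtain ⟨s, t, rfl⟩ := hz
  simp [hx.1, hx.2, hy.1, hy.2]

theorem goal_of_pure (hK : R4 K) {σ : S} (h : D.Pure σ) (h0 : σ ≠ 0) (h1 : D.β σ n = 0)
    (h2 : ∀ a, D.β σ (μ a) = 0) (h3 : D.e σ n = 0) {a : Fin 4 → K} (ha : a ≠ 0)
    (h4 : D.e σ (μ a) = 0) : D.Goal n μ := by
  have r1 := LinearMap.finrank_range_add_finrank_ker (D.e σ ∘ₗ μ)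
  have r2 : 1 ≤ finrank K (LinearMap.ker (D.e σ ∘ₗ μ)) :=
    Submodule.one_le_finrank_iff.2 ((Submodule.ne_bot_iff _).2 ⟨a, h4, ha⟩)
  have r3 := LinearMap.BilinForm.finrank_orthogonal D.Bn (LinearMap.range (D.e σ ∘ₗ μ))
  rw [D.dV] at r3
  rw [finrank_fin_fun] at r1
  obtain ⟨w, hw, hw'⟩ : ∃ w ∈ LinearMap.BilinForm.orthogonal D.B (LinearMap.range (D.e σ ∘ₗ μ)),
      D.γ w σ ∉ Submodule.span K {σ} := by
    by_contra hc
    push Not at hc
    have r4 := Submodule.finrank_mono (show LinearMap.BilinForm.orthogonal D.B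
      (LinearMap.range (D.e σ ∘ₗ μ)) ≤ (Submodule.span K {σ}).comap (D.γ.flip σ) from hc)
    have r5 := D.stab_le σ
    have r6 := D.W_le h0
    omega
  refine goal_of_pair (x := σ) (y := D.γ w σ) (fun s t e => ?_) ⟨h1, h2⟩ ⟨?_, fun b => ?_⟩ ?_
  · have ht : t = 0 := by
      by_contra ht
      refine hw' (Submodule.mem_span_singleton.2 ⟨-(s / t), ?_⟩)
      have : t • (-(s / t) • σ) = t • D.γ w σ := by
        rw [smul_smul, show t * -(s / t) = -s by field_simp]
        linear_combination (norm := module) -e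
      exact smul_right_injective S ht this
    rw [ht, zero_smul, add_zero] at e
    exact ⟨(smul_eq_zero.1 e).resolve_right h0, ht⟩
  · rw [← D.he, h3]; simp
  · rw [← D.he]; exact hw _ ⟨b, rfl⟩
  · have r4 := rank_fun (D.W σ) (D.B w)
    have r5 := h.W_ge hK
    have r6 : D.W σ ⊓ LinearMap.ker (D.B w) ≤ D.W σ ⊓ D.W (D.γ w σ) := fun u hu => ⟨hu.1, by
      rw [SetLike.mem_coe, D.mem_W, D.cl', D.mem_W.1 hu.1, D.Bs u w, LinearMap.mem_ker.1 hu.2]
      simp⟩
    have r7 := Submodule.finrank_mono r6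
    omega

theorem line (hK : R4 K) {x y : S} (hi : Ind2 K x y) (px : D.Pure x) (py : D.Pure y)
    (e0 : D.e x y = 0) (b0 : D.β x y = 0) (hx : D.β x n = 0 ∧ ∀ a, D.β x (μ a) = 0)
    (hy : D.β y n = 0 ∧ ∀ a, D.β y (μ a) = 0) (ex : D.e x n = 0) (ey : D.e y n = 0) :
    D.Goal n μ := by
  have x0 : x ≠ 0 := fun h => one_ne_zero (hi 1 0 (by simp [h])).1
  have y0 : y ≠ 0 := fun h => one_ne_zero (hi 0 1 (by simp [h])).2
  have fin : ∀ (s t : K) (a : Fin 4 → K), (s ≠ 0 ∨ t ≠ 0) → a ≠ 0 →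
      s • D.e x (μ a) + t • D.e y (μ a) = 0 → D.Goal n μ := fun s t a hst ha e =>
    goal_of_pure hK (σ := s • x + t • y)
      ⟨by simp [px.1, py.1, e0, D.es y x], by simp [px.2, py.2, b0, D.βs y x]⟩
      (fun h => by have := hi s t h; tauto) (by simp [hx.1, hy.1]) (by simp [hx.2, hy.2])
      (by simp [ex, ey]) ha (by simpa using e)
  have wx : ∀ a, D.γ (D.e x (μ a)) x = 0 := fun a => by rw [px.F2 hK, hx.2, zero_smul]
  have wy : ∀ a, D.γ (D.e y (μ a)) y = 0 := fun a => by rw [py.F2 hK, hy.2, zero_smul]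
  have R : ∀ a, D.γ (D.e y (μ a)) x = -D.γ (D.e x (μ a)) y := fun a => by
    have := D.F3 hK x y (μ a)
    rw [e0, b0, hx.2, hy.2, map_zero, LinearMap.zero_apply] at this
    linear_combination (norm := module) this
  by_cases hω : ∀ a a', D.B (D.e x (μ a)) (D.e y (μ a')) = 0
  · obtain ⟨s, t, a, hst, ha, e⟩ := pencil' hK (D.e x ∘ₗ μ) (D.e y ∘ₗ μ)
      (LinearMap.range (D.e x ∘ₗ μ) ⊔ LinearMap.range (D.e y ∘ₗ μ))
      (fun a => Submodule.mem_sup_left ⟨a, rfl⟩) (fun a => Submodule.mem_sup_right ⟨a, rfl⟩)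
      (by simp) (by simp) (by
        rw [finrank_fin_fun]
        refine D.iso_le _ fun u hu v hv => ?_
        obtain ⟨_, ⟨a1, rfl⟩, _, ⟨a2, rfl⟩, rfl⟩ := Submodule.mem_sup.1 hu
        obtain ⟨_, ⟨a3, rfl⟩, _, ⟨a4, rfl⟩, rfl⟩ := Submodule.mem_sup.1 hv
        simp only [LinearMap.comp_apply, map_add, LinearMap.add_apply, hω,
          W_orth x0 (wx _) (wx _), W_orth y0 (wy _) (wy _), D.Bs (D.e y _) (D.e x _), add_zero])
    exact fin s t a hst ha e
  push Not at hω
  obtain ⟨a1, a2, hω⟩ := hω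
  by_cases hd : 3 ≤ finrank K (D.W x ⊓ D.W y : Submodule K V)
  · exact goal_of_pair hi hx hy hd
  let T : (Fin 4 → K) →ₗ[K] S := D.γ.flip y ∘ₗ D.e x ∘ₗ μ
  have hT : ∀ a, T a ∈ Submodule.span K {T a1} ⊔ Submodule.span K {T a2} := fun a => by
    have c1 := D.cl' (D.e x (μ a1)) (D.e y (μ a)) x
    rw [wx, map_zero, sub_zero, R, map_neg] at c1
    have c2 := congrArg (D.γ (D.e y (μ a2))) c1
    rw [map_neg, map_smul, R, D.cl' (D.e y (μ a2)), D.cl' (D.e y (μ a2)) (D.e x (μ a)), wy,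
      map_zero, sub_zero, map_smul, D.Bs (D.e y (μ a2)) (D.e x (μ a1))] at c2
    refine (Submodule.smul_mem_iff _ (mul_ne_zero two_ne_zero hω)).1 (Submodule.mem_sup.2
      ⟨_, Submodule.smul_mem _ (2 * D.B (D.e y (μ a2)) (D.e x (μ a)))
        (Submodule.mem_span_singleton_self _), _,
        Submodule.smul_mem _ (2 * D.B (D.e x (μ a1)) (D.e y (μ a)))
        (Submodule.mem_span_singleton_self _), ?_⟩)
    change _ • D.γ (D.e x (μ a1)) y + _ • D.γ (D.e x (μ a2)) y = _ • D.γ (D.e x (μ a)) y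
    linear_combination (norm := module) c2
  have r1 := rank_le ⊤ T _ fun a _ => hT a
  have r2 := Submodule.finrank_add_le_finrank_add_finrank (Submodule.span K {T a1})
    (Submodule.span K {T a2})
  have r3 := span_one (K := K) (T a1)
  have r4 := span_one (K := K) (T a2)
  have r5 := Submodule.finrank_le (LinearMap.ker T)
  rw [top_inf_eq, finrank_top] at r1
  rw [finrank_fin_fun] at r1 r5
  obtain ⟨s, t, a, hst, ha, e⟩ := pencil' hK ((D.e x ∘ₗ μ) ∘ₗ (LinearMap.ker T).subtype)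
    ((D.e y ∘ₗ μ) ∘ₗ (LinearMap.ker T).subtype) (D.W x ⊓ D.W y) (fun a => ⟨wx _, a.2⟩)
    (fun a => ⟨(R a).trans (neg_eq_zero.2 a.2), wy _⟩) (by omega) r5 (by omega)
  exact fin s t a hst (fun h => ha (Subtype.ext h)) e

end Sp

end Pool.Agent.Lib.MP_97eeef_nt.S9
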